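import Pool.Agent.Lib.MP_610fe3_an.AC.EyonDefs
import Pool.Agent.Lib.MP_610fe3_an.T7.Spec

/-!
# The exponent of the key estimate as a parameter

The key estimates EYON (AC/Spec.lean) and EYFREE (T7/Spec.lean), and what follows from them, with
`P u * κ` (`P : ℕ → ℝ`, `0 ≤ P u`) in place of `u ^ 2 * κ`. The key estimates are true with `P u = u ^ 2` (AC, T7).
-/

open Set Filter Function Metric
open scoped Topology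

namespace Pool.Agent.Lib.MP610fe3.U1

open Cf H6 T4 T6 AC T7

universe v

/-- As `AC.SpecEyOn`. -/
def SpecEyOnP (P : ℕ → ℝ) : Prop :=
  ∀ {M : Type v} [MetricSpace M] [CompactSpace M] (f : M ≃ₜ M) (u : ℕ)
    (φ : M → EuclideanSpace ℝ (Fin u) → M) (C a b κ₀ r r₁ e ρ η ρ₁ κ C₂ : ℝ) (A : Set M),
    Sys f u φ C a b κ₀ r r₁ e ρ → Attr f A r → Sc C e ρ η ρ₁ → 10 ^ 6 * C ^ 20 * η ≤ e →
    10 ^ 6 * C ^ 20 * η ≤ ρ → 0 ≤ C₂ → 0 ≤ κ → QcOn f A r C₂ κ → ∃ C₁ : ℝ, 0 < C₁ ∧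
    ∀ (q : ℕ → M) (i m N : ℕ), ∀ w ∈ A, (∀ k ≤ i, q k ∈ A) →
      i * (C * Real.exp (-(b * N)) * (2 * e)) ≤ η / (4 * C) → Dom f φ e ρ₁ q i m w →
      ∀ s ∈ closedBall (0 : EuclideanSpace ℝ (Fin u)) (ρ₁ / 2), ∀ t ∈ closedBall 0 (ρ₁ / 2),
      ∀ z z', Lad f e q i (f.symm^[m] (φ w s)) z → Lad f e q i (f.symm^[m] (φ w t)) z' →
        z' ∈ Wl f.symm (C₁ * (N + 1) ^ u *
          Real.exp (P u * κ * (N - m : ℕ) - a * m)) z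

/-- As `AC.SpecJohn`. -/
def SpecJohnP (P : ℕ → ℝ) : Prop :=
  ∀ {M : Type v} [MetricSpace M] [CompactSpace M] (f : M ≃ₜ M) (u : ℕ)
    (φ : M → EuclideanSpace ℝ (Fin u) → M) (C a b κ₀ r r₁ e ρ η ρ₁ κ C₂ : ℝ) (A : Set M),
    Sys f u φ C a b κ₀ r r₁ e ρ → Attr f A r → Sc C e ρ η ρ₁ → 10 ^ 6 * C ^ 20 * η ≤ e →
    10 ^ 6 * C ^ 20 * η ≤ ρ → 0 ≤ C₂ → 0 ≤ κ → QcOn f A r C₂ κ → ∃ C₁ h₀ : ℝ, 0 < C₁ ∧ 0 < h₀ ∧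
    ∀ (z y : ℕ → M) (l m N : ℕ) (E : ℝ),
      (∀ k ≤ l, z k ∈ A) → (∀ k < l, z (k + 1) ∈ Wl f h₀ (z k)) →
      (∀ k < l, y (k + 1) ∈ Wl f e (y k)) → (∀ k ≤ l, y k ∈ Wl f.symm e (z k)) →
      (∃ s ∈ closedBall (0 : EuclideanSpace ℝ (Fin u)) ρ₁, f^[m] (y 0) = φ (f^[m] (z 0)) s) →
      l * (C * Real.exp (-(b * N)) * (2 * e)) ≤ η / (4 * C) →
      E = C₁ * (N + 1) ^ u * Real.exp (P u * κ * (N - m : ℕ) - a * m) →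
      E ≤ e / (16 * C ^ 2) → y l ∈ Wl f.symm E (z l)

/-- As `T7.SpecEyFree`. -/
def SpecEyFreeP (P : ℕ → ℝ) : Prop :=
  ∀ {M : Type v} [MetricSpace M] [CompactSpace M] (f : M ≃ₜ M) (u : ℕ)
    (φ : M → EuclideanSpace ℝ (Fin u) → M) (C a b κ r r₁ e ρ η ρ₁ : ℝ) (A : Set M),
    Sys f u φ C a b κ r r₁ e ρ → Attr f A r → Sc C e ρ η ρ₁ → 10 ^ 6 * C ^ 20 * η ≤ e →
    10 ^ 6 * C ^ 20 * η ≤ ρ → ∃ C₁ : ℝ, 0 < C₁ ∧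
    ∀ (q : ℕ → M) (i m N : ℕ) (w : M), Free f A r (2 * η) w →
      i * (C * Real.exp (-(b * N)) * (2 * e)) ≤ η / (4 * C) → Dom f φ e ρ₁ q i m w →
      ∀ s ∈ closedBall (0 : EuclideanSpace ℝ (Fin u)) (ρ₁ / 2), ∀ t ∈ closedBall 0 (ρ₁ / 2),
      ∀ z z', Lad f e q i (f.symm^[m] (φ w s)) z → Lad f e q i (f.symm^[m] (φ w t)) z' →
        z' ∈ Wl f.symm (C₁ * (N + 1) ^ u *
          Real.exp (P u * κ * (N - m : ℕ) - a * m)) z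

/-- As `T7.SpecCore7`. -/
def SpecCore7P (P : ℕ → ℝ) : Prop :=
  ∀ {M : Type v} [MetricSpace M] [CompactSpace M] [ConnectedSpace M] (f : M ≃ₜ M) (u : ℕ)
    (φ : M → EuclideanSpace ℝ (Fin u) → M) (C a b κ r r₁ e ρ ρs Λ b₂ : ℝ) (A : Set M),
    Sys f u φ C a b κ r r₁ e ρ → Attr f A r → 0 < ρs → 0 ≤ Λ → b ≤ b₂ →
    Slow f ρs r Λ (Real.exp b₂) → P u * κ * (b₂ - b) < a * b → basin f A r = univ

/-- As `AC.SpecEyGen`, for an invariant set `X`, saturated by the unstable sets. -/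
def SpecEyGenP (P : ℕ → ℝ) : Prop :=
  ∀ {M : Type v} [MetricSpace M] [CompactSpace M] (f : M ≃ₜ M) (u : ℕ)
    (φ : M → EuclideanSpace ℝ (Fin u) → M) (C a b κ₀ r r₁ e ρ η ρ₁ κ : ℝ) (X : Set M) (l₀ : ℕ),
    Sys f u φ C a b κ₀ r r₁ e ρ → Sc C e ρ η ρ₁ → 10 ^ 6 * C ^ 20 * η ≤ e →
    10 ^ 6 * C ^ 20 * η ≤ ρ → 0 ≤ κ → CellsP f X r e κ → (∀ x, f x ∈ X ↔ x ∈ X) →
    (∀ x ∈ X, ∀ y ∈ Wl f.symm r x, y ∈ X) → ∃ C₁ : ℝ, 0 < C₁ ∧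
    ∀ (q : ℕ → M) (i m N : ℕ), ∀ w ∈ X, q i ∈ X →
      (l₀ ≤ m → m ≤ N → ∀ x ∈ X, ∃ z ∈ Wl f.symm η x,
        ∀ s ∈ closedBall (0 : EuclideanSpace ℝ (Fin u)) ρ₁,
          ¬ Lad f e q i (f.symm^[m] (φ w s)) (f.symm^[m - l₀] z)) →
      i * (C * Real.exp (-(b * N)) * (2 * e)) ≤ η / (4 * C) → Dom f φ e ρ₁ q i m w →
      ∀ s ∈ closedBall (0 : EuclideanSpace ℝ (Fin u)) (ρ₁ / 2), ∀ t ∈ closedBall 0 (ρ₁ / 2),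
      ∀ z z', Lad f e q i (f.symm^[m] (φ w s)) z → Lad f e q i (f.symm^[m] (φ w t)) z' →
        z' ∈ Wl f.symm (C₁ * (N + 1) ^ u *
          Real.exp (P u * κ * (N - m : ℕ) - a * m)) z

end Pool.Agent.Lib.MP610fe3.U1
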