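import Pool.Agent.Lib.MP_610fe3_an.AC.EYON
import Pool.Agent.Lib.MP_610fe3_an.T7.INRB
import Pool.Agent.Lib.MP_610fe3_an.U1.Spec

/-!
# The key estimate inside the attractor and for free discs, from the general form
-/

open Set Filter Function Metric
open scoped Topology

namespace Pool.Agent.Lib.MP610fe3.U1

open Cf H6 T4 T6 AC T7

universe v

theorem small {C e η : ℝ} (hC : 1 ≤ C) (hη : 0 ≤ η) (h : 10 ^ 6 * C ^ 20 * η ≤ e) :
    1000 * C ^ 5 * η ≤ e := by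
  refine le_trans ?_ h
  have h1 : C ^ 5 ≤ C ^ 20 := pow_le_pow_right₀ hC (by norm_num)
  have h2 : (0 : ℝ) ≤ C ^ 20 := by positivity
  have h3 : 1000 * C ^ 5 ≤ 10 ^ 6 * C ^ 20 := by linarith
  exact mul_le_mul_of_nonneg_right h3 hη

theorem bound_le {C₁ t : ℝ} {u N : ℕ} (hC₁ : 0 < C₁) :
    C₁ * ((N : ℝ) + 1) ^ (u - 1) * Real.exp t ≤ C₁ * ((N : ℝ) + 1) ^ u * Real.exp t := by
  have h : ((N : ℝ) + 1) ^ (u - 1) ≤ ((N : ℝ) + 1) ^ u :=
    pow_le_pow_right₀ (by have : (0 : ℝ) ≤ N := Nat.cast_nonneg N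
                          linarith) (Nat.sub_le u 1)
  gcongr

/-- The exponent `u ^ 2`. -/
theorem specEyGenP_sq : SpecEyGenP.{v} (fun u => (u : ℝ) ^ 2) := by
  intro M _ _ f u φ C a b κ₀ r r₁ e ρ η ρ₁ κ X l₀ S hc h1 h2 hκ hcells hinv hsat
  have hC := S.C1
  have he := S.e_pos
  have her := S.e_le_r
  have hη := hc.η_pos
  have hηe := hc.η_le
  obtain ⟨C₁, hC₁, h⟩ := specEyGen f u φ C a b κ₀ r r₁ e ρ η ρ₁ κ X l₀ S hc (small hC hη.le h1)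
    (small hC hη.le h2) hκ hcells
  refine ⟨C₁, hC₁, fun q i m N w hw hq hinr hi hdom s hs t ht z z' hz hz' => ?_⟩
  refine Wl_mono (bound_le hC₁) (h q i m N w (fun s hs => ?_) (fun v hv j => ?_) hinr hi hdom
    s hs t ht z z' hz hz')
  · exact hsat w hw _ (Wl_mono (by nlinarith) (hc.disc S w hs))
  · exact (BasM.iter_mem hinv j v).2 (hsat _ hq v (Wl_mono (by linarith) hv))

/-- Module EYON, from the general form. -/
theorem specEyOnP_of {P : ℕ → ℝ} (hE : SpecEyGenP.{v} P) : SpecEyOnP.{v} P := by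
  intro M _ _ f u φ C a b κ₀ r r₁ e ρ η ρ₁ κ C₂ A S hA hc h1 h2 hC₂ hκ hQ
  obtain ⟨l₀, hinr⟩ := specInrOn f u φ C a b κ₀ r r₁ e ρ η ρ₁ A S hA hc
  obtain ⟨C₁, hC₁, h⟩ := hE f u φ C a b κ₀ r r₁ e ρ η ρ₁ κ A l₀ S hc h1 h2 hκ
    (cellsP_of_qcOn S hA hC₂ hκ hQ) hA.inv hA.sat
  have hC := S.C1
  have hη := hc.η_pos
  refine ⟨C₁, hC₁, fun q i m N w hw hq hi hdom => ?_⟩
  refine h q i m N w hw (hq i le_rfl) (fun h3 h4 x hx => ?_) hi hdom
  refine hinr q i m N w hw h3 h4 (hi.trans ?_) x hx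
  rw [div_le_iff₀ (by positivity)]
  nlinarith

/-- Module EYFREE, from the general form. -/
theorem specEyFreeP_of {P : ℕ → ℝ} (hE : SpecEyGenP.{v} P) : SpecEyFreeP.{v} P := by
  intro M _ _ f u φ C a b κ r r₁ e ρ η ρ₁ A S hA hc h1 h2
  have hC := S.C1
  have hC0 : 0 < C := by linarith
  have hη := hc.η_pos
  obtain ⟨l₀, hl₀⟩ := T7.specInrB f u φ C a b κ r r₁ e ρ η ρ₁ A S hA hc
  obtain ⟨C₁, hC₁, h⟩ := hE f u φ C a b κ r r₁ e ρ η ρ₁ κ univ l₀ S hc h1 h2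
    S.κ_nonneg (cellsP_univ S) (fun _ => by simp) (fun _ _ _ _ => mem_univ _)
  refine ⟨C₁, hC₁, fun q i m N w hw hi hdom => ?_⟩
  refine h q i m N w (mem_univ _) (mem_univ _) (fun h3 h4 x _ => ?_) hi hdom
  refine hl₀ q i m N w hw h3 h4 (hi.trans ?_) x
  rw [div_le_iff₀ (by positivity)]
  nlinarith

end Pool.Agent.Lib.MP610fe3.U1
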