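import Pool.Agent.Lib.MP_610fe3_an.AC.JOHN
import Pool.Agent.Lib.MP_610fe3_an.U1.Spec

/-!
# Module JOHN, with the exponent as a parameter
-/

open Set Filter Function Metric
open scoped Topology

namespace Pool.Agent.Lib.MP610fe3.U1

open Cf H6 T4 T6 AC AC.JohnM

universe v

/-- Module JOHN, with the exponent as a parameter (copy of AC/JOHN.lean). -/
theorem specJohnP {P : ℕ → ℝ} (hP : ∀ u, 0 ≤ P u) (hEy : SpecEyOnP.{v} P) : SpecJohnP.{v} P := by
  intro M _ _ f u φ C a b κ₀ r r₁ e ρ η ρ₁ κ C₂ A S hA hc h1 h2 hC₂ hκ hq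
  obtain ⟨C₁', hC₁', hey⟩ := hEy f u φ C a b κ₀ r r₁ e ρ η ρ₁ κ C₂ A S hA hc h1 h2 hC₂ hκ hq
  have hC := S.C1
  have hPu := hP u
  have ha := S.a_pos
  have he := S.e_pos
  have hη := hc.η_pos
  obtain ⟨n₀, hn₀⟩ := exists_nat_ge (2 * C ^ 3)
  set G : ℝ := max (C * η * Real.exp a) (n₀ * C₁') with hG
  have hG1 : C * η * Real.exp a ≤ G := le_max_left _ _
  have hG2 : n₀ * C₁' ≤ G := le_max_right _ _
  have hG0 : 0 < G := lt_of_lt_of_le (by positivity) hG1
  set θ : ℝ := Real.exp (-a) with hθ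
  have hθ0 : 0 < θ := Real.exp_pos _
  have hθ1 : θ < 1 := by rw [hθ, Real.exp_lt_one_iff]; linarith
  have h16 : 0 < e / (16 * C ^ 2) := by positivity
  refine ⟨G / (1 - θ), e / (16 * C ^ 2), div_pos hG0 (by linarith), h16, ?_⟩
  intro z y l m N E hzA hz hy hyz hs hl hE hEe
  set E₀ : ℝ := (N + 1) ^ u * Real.exp (P u * κ * (N - m : ℕ) - a * m) with hE₀
  have hE₀0 : 0 < E₀ := by positivity
  have hEE : E = G / (1 - θ) * E₀ := by rw [hE, hE₀]; ring
  set F : ℕ → ℝ := fun j => G * E₀ * ∑ t ∈ Finset.range j, θ ^ (t + 1) with hF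
  have hFs : ∀ j, F (j + 1) = F j + G * E₀ * θ ^ (j + 1) := by
    intro j
    simp only [hF]
    rw [Finset.sum_range_succ]
    ring
  have hFE : ∀ j, F j ≤ E := by
    intro j
    have h3 : (∑ t ∈ Finset.range j, θ ^ (t + 1)) ≤ 1 / (1 - θ) := by
      calc (∑ t ∈ Finset.range j, θ ^ (t + 1)) ≤ ∑ t ∈ Finset.range j, θ ^ t := by
            refine Finset.sum_le_sum fun t _ => ?_
            exact pow_le_pow_of_le_one hθ0.le hθ1.le (Nat.le_succ t)
        _ ≤ 1 / (1 - θ) := by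
            have h4 := Summable.sum_le_tsum (f := fun t : ℕ => θ ^ t) (Finset.range j)
              (fun t _ => by positivity) (summable_geometric_of_lt_one hθ0.le hθ1)
            rw [tsum_geometric_of_lt_one hθ0.le hθ1] at h4
            rwa [one_div]
    rw [hEE]
    calc F j = G * E₀ * ∑ t ∈ Finset.range j, θ ^ (t + 1) := rfl
      _ ≤ G * E₀ * (1 / (1 - θ)) := by gcongr
      _ = G / (1 - θ) * E₀ := by ring
  -- sizes
  have hθpow : ∀ j : ℕ, Real.exp (-(a * ((m + j : ℕ) : ℝ))) * θ =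
      Real.exp (-(a * m)) * θ ^ (j + 1) := by
    intro j
    rw [hθ, ← Real.exp_nat_mul, ← Real.exp_add, ← Real.exp_add]
    congr 1
    push_cast
    ring
  have hE₀m : Real.exp (-(a * m)) ≤ E₀ := by
    rw [hE₀]
    have h3 : (1 : ℝ) ≤ ((N : ℝ) + 1) ^ u := one_le_pow₀ (by
      have : (0 : ℝ) ≤ N := Nat.cast_nonneg _
      linarith)
    have h4 : Real.exp (-(a * m)) ≤ Real.exp (P u * κ * (N - m : ℕ) - a * m) := by
      apply Real.exp_le_exp.2
      have : 0 ≤ P u * κ * ((N - m : ℕ) : ℝ) := by positivity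
      linarith
    calc Real.exp (-(a * m)) ≤ 1 * Real.exp (P u * κ * (N - m : ℕ) - a * m) := by
          rw [one_mul]; exact h4
      _ ≤ _ := by gcongr
  have hsz0 : ∀ j : ℕ, C * Real.exp (-(a * ((m + j : ℕ) : ℝ))) * η ≤ G * E₀ * θ ^ (j + 1) := by
    intro j
    have h3 := hθpow j
    have h4 : Real.exp a * θ = 1 := by rw [hθ, ← Real.exp_add]; simp
    calc C * Real.exp (-(a * ((m + j : ℕ) : ℝ))) * η
        = (C * η * Real.exp a) * (Real.exp (-(a * ((m + j : ℕ) : ℝ))) * θ) := by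
          linear_combination (-(C * η * Real.exp (-(a * ((m + j : ℕ) : ℝ))))) * h4
      _ = (C * η * Real.exp a) * (Real.exp (-(a * m)) * θ ^ (j + 1)) := by rw [h3]
      _ ≤ G * (E₀ * θ ^ (j + 1)) := by gcongr
      _ = G * E₀ * θ ^ (j + 1) := by ring
  have hsz1 : ∀ j : ℕ, n₀ * (C₁' * (N + 1) ^ u *
      Real.exp (P u * κ * (N - (m + j + 1) : ℕ) - a * ((m + j + 1 : ℕ) : ℝ))) ≤
        G * E₀ * θ ^ (j + 1) := by
    intro j
    have h3 : Real.exp (P u * κ * (N - (m + j + 1) : ℕ) - a * ((m + j + 1 : ℕ) : ℝ)) ≤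
        Real.exp (P u * κ * (N - m : ℕ) - a * m) * θ ^ (j + 1) := by
      rw [hθ, ← Real.exp_nat_mul, ← Real.exp_add]
      apply Real.exp_le_exp.2
      have h4 : ((N - (m + j + 1) : ℕ) : ℝ) ≤ ((N - m : ℕ) : ℝ) := by
        exact_mod_cast (by omega : N - (m + j + 1) ≤ N - m)
      have h5 : P u * κ * ((N - (m + j + 1) : ℕ) : ℝ) ≤
          P u * κ * ((N - m : ℕ) : ℝ) := by gcongr
      push_cast at h5 ⊢
      linarith
    calc n₀ * (C₁' * (N + 1) ^ u *
          Real.exp (P u * κ * (N - (m + j + 1) : ℕ) - a * ((m + j + 1 : ℕ) : ℝ)))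
        ≤ n₀ * (C₁' * (N + 1) ^ u *
          (Real.exp (P u * κ * (N - m : ℕ) - a * m) * θ ^ (j + 1))) := by gcongr
      _ = (n₀ * C₁') * E₀ * θ ^ (j + 1) := by rw [hE₀]; ring
      _ ≤ G * E₀ * θ ^ (j + 1) := by gcongr
  -- uniqueness of the stages
  have huniq : ∀ (k : ℕ) (x x' x'' : M), Lad f e z k x x' → Lad f e z k x x'' → x' = x'' :=
    fun k x x' x'' h3 h4 => (specTr f u φ C a b κ₀ r r₁ e ρ S z k).1 x x' x''
      (h3.mono (by linarith)) (h4.mono (by linarith))
  have hee : e / (16 * C ^ 2) ≤ e := by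
    apply div_le_self he.le
    have : (1 : ℝ) ≤ C ^ 2 := one_le_pow₀ hC
    linarith
  have hself : ∀ k ≤ l, Lad f e z k (z 0) (z k) := fun k hk =>
    ⟨z, rfl, rfl, fun i hi => Wl_mono hee (hz i (by omega)), fun i _ => mem_Wl_self he.le⟩
  -- the claim
  have key : ∀ k ≤ l, ∀ (j : ℕ) (x : M), Rc f φ ρ₁ m (z 0) j x →
      ∃ x', Lad f e z k x x' ∧ x' ∈ Wl f.symm (F j) (z k) := by
    intro k
    induction k with
    | zero =>
      intro _ j x hx
      have h3 : x ∈ Wl f.symm (F j) (z 0) := by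
        induction hx with
        | zero => simpa [hF] using mem_Wl_self (f := f.symm) (x := z 0) le_rfl
        | succ j x y _ h4 ih =>
          rw [hFs]
          exact Wl_trans ih (Wl_mono (hsz0 j) (nx_wl S hc h4))
      exact ⟨x, Lad.zero (Wl_mono (((hFE j).trans hEe).trans hee) h3), h3⟩
    | succ k ih =>
      intro hk
      have ih := ih (by omega)
      have hex : ∀ (j : ℕ) (x : M), Rc f φ ρ₁ m (z 0) j x → ∃ x', Lad f e z (k + 1) x x' := by
        intro j x hx
        obtain ⟨x', h3, h4⟩ := ih j x hx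
        exact JohnM.next S le_rfl hEe (hz k (by omega)) h3 (Wl_mono (hFE j) h4)
      intro j x hx
      induction hx with
      | zero => exact ⟨z (k + 1), hself _ hk, by simpa [hF] using mem_Wl_self le_rfl⟩
      | succ j x y hx h4 ihj =>
        obtain ⟨X, hX, hX'⟩ := ihj
        obtain ⟨g, hg0, hg1, hg2, hg3⟩ := nx_pieces S hc hn₀ h4
        have hgR : ∀ i ≤ n₀, Rc f φ ρ₁ m (z 0) (j + 1) (g i) := fun i hi =>
          .succ j x _ hx (hg2 i hi)
        have hst : ∀ i : ℕ, ∃ X', i ≤ n₀ → Lad f e z (k + 1) (g i) X' := by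
          intro i
          by_cases hi : i ≤ n₀
          · obtain ⟨X', h5⟩ := hex _ _ (hgR i hi)
            exact ⟨X', fun _ => h5⟩
          · exact ⟨x, fun h => absurd h hi⟩
        choose G' hG' using hst
        set δ : ℝ := C₁' * (N + 1) ^ u *
          Real.exp (P u * κ * (N - (m + j + 1) : ℕ) - a * ((m + j + 1 : ℕ) : ℝ)) with hδ
        have hδ0 : 0 ≤ δ := by positivity
        have hstep : ∀ i < n₀, G' (i + 1) ∈ Wl f.symm δ (G' i) := by
          intro i hi
          obtain ⟨s, hs1, hs2⟩ := hg3 i hi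
          have hgA : f^[m + j + 1] (g i) ∈ A :=
            (inv_iter hA _ _).2 (rc_mem S hc hA (hzA 0 (Nat.zero_le _)) (hgR i hi.le))
          have hdom : Dom f φ e ρ₁ z (k + 1) (m + j + 1) (f^[m + j + 1] (g i)) := by
            intro s' hs'
            refine hex (j + 1 + 1) _ (.succ (j + 1) (g i) _ (hgR i hi.le) ⟨s', hs', ?_⟩)
            rw [← add_assoc]
            exact Cf.iterate_symm_iterate f (m + j + 1) _
          have hkl : ((k + 1 : ℕ) : ℝ) * (C * Real.exp (-(b * N)) * (2 * e)) ≤ η / (4 * C) := by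
            refine le_trans ?_ hl
            have h5 : ((k + 1 : ℕ) : ℝ) ≤ l := by exact_mod_cast hk
            have h6 : 0 ≤ C * Real.exp (-(b * N)) * (2 * e) := by positivity
            exact mul_le_mul_of_nonneg_right h5 h6
          have hρ2 : (0 : EuclideanSpace ℝ (Fin u)) ∈ closedBall 0 (ρ₁ / 2) :=
            mem_closedBall_self (by linarith [hc.ρ₁_pos])
          refine hey z (k + 1) (m + j + 1) N _ hgA (fun i hi => hzA i (by omega)) hkl hdom 0 hρ2
            s hs1 (G' i) (G' (i + 1)) ?_ ?_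
          · rw [S.zero, Cf.symm_iterate_iterate]
            exact hG' i hi.le
          · rw [← hs2, Cf.symm_iterate_iterate]
            exact hG' (i + 1) hi
        have hsum : ∀ i ≤ n₀, G' i ∈ Wl f.symm (i * δ) (G' 0) := by
          intro i
          induction i with
          | zero => intro _; simpa using mem_Wl_self (f := f.symm) (x := G' 0) le_rfl
          | succ i ihi =>
            intro hi
            have h5 := Wl_trans (ihi (by omega)) (hstep i hi)
            have h6 : (i : ℝ) * δ + δ = ((i + 1 : ℕ) : ℝ) * δ := by push_cast; ring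
            rwa [h6] at h5
        have hX0 : G' 0 = X := huniq (k + 1) x _ _ (by
          have := hG' 0 (Nat.zero_le _)
          rwa [hg0] at this) hX
        refine ⟨G' n₀, ?_, ?_⟩
        · have := hG' n₀ le_rfl
          rwa [hg1] at this
        · rw [hFs]
          have h5 := hsum n₀ le_rfl
          rw [hX0] at h5
          exact Wl_trans hX' (Wl_mono (hsz1 j) h5)
  -- the end
  obtain ⟨s, hs1, hs2⟩ := hs
  have hR : Rc f φ ρ₁ m (z 0) 1 (y 0) := .succ 0 (z 0) (y 0) .zero ⟨s, hs1, hs2⟩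
  obtain ⟨x', h3, h4⟩ := key l le_rfl 1 (y 0) hR
  have h5 : Lad f e z l (y 0) (y l) := ⟨y, rfl, rfl, hy, hyz⟩
  rw [← huniq l (y 0) _ _ h3 h5]
  exact Wl_mono (hFE 1) h4

end Pool.Agent.Lib.MP610fe3.U1
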