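import Pool.Agent.Lib.MP_610fe3_an.AC.AllOf2
import Pool.Agent.Lib.MP_610fe3_an.T7.PATHJ
import Pool.Agent.Lib.MP_610fe3_an.U1.COMBP
import Pool.Agent.Lib.MP_610fe3_an.U1.CORE7P
import Pool.Agent.Lib.MP_610fe3_an.U1.EyP
import Pool.Agent.Lib.MP_610fe3_an.U1.JOHNP

/-!
# What follows from the key estimate with the exponent `P u * κ`
-/

namespace Pool.Agent.Lib.MP610fe3.U1

open AC T7

universe u v

/-- The `C^1` theorem on attractors. -/
theorem mfd2P {P : ℕ → ℝ} (hP : ∀ u, 0 ≤ P u) (hE : SpecEyGenP.{v} P) : SpecMfd2.{u, v} P :=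
  mfd2_of (specComb2P hP (specJohnP hP (specEyOnP_of hE)))

/-- The `C^2` theorem on attractors. -/
theorem perA2P {P : ℕ → ℝ} (hP : ∀ u, 0 ≤ P u) (hE : SpecEyGenP.{v} P) : SpecPerA2.{u, v} P :=
  perA2_of (specComb2P hP (specJohnP hP (specEyOnP_of hE)))

/-- The abstract theorem T7. -/
theorem core7P {P : ℕ → ℝ} (hP : ∀ u, 0 ≤ P u) (hE : SpecEyGenP.{v} P) : SpecCore7P.{v} P :=
  specCore7P hP (specEyFreeP_of hE) specPathJ

end Pool.Agent.Lib.MP610fe3.U1
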